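import Pool.Agent.Lib.MP_3ca1b2_co.Data

/-!
A finite search, evaluated by the kernel, about nine permutations of four colours.
-/

namespace Pool.Agent.Lib.MP_3ca1b2_co

/-- The image of `x` under the permutation number `s` (read off from the base-4 digits). -/
def act (s x : Nat) : Nat := Nat.land (Nat.shiftRight tb (Nat.mul 2 (Nat.add (Nat.mul 4 s) x))) 3

/-- Boolean conjunction, lazily evaluated. -/
def ands (a b : Bool) : Bool := Bool.rec (motive := fun _ => Bool) false b a

/-- Boolean disjunction, lazily evaluated. -/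
def ors (a b : Bool) : Bool := Bool.rec (motive := fun _ => Bool) b true a

lemma ands_eq (a b : Bool) : ands a b = (a && b) := by cases a <;> cases b <;> rfl

lemma ors_eq (a b : Bool) : ors a b = (a || b) := by cases a <;> cases b <;> rfl

/-- Continue only if the number is not zero. -/
def nz (n : Nat) (f : Nat → Bool) : Bool :=
  Bool.rec (motive := fun _ => Bool) (f n) true (Nat.beq n 0)

lemma nz_of_ne {n : Nat} {f : Nat → Bool} (h : nz n f = true) (hn : n ≠ 0) : f n = true := by
  unfold nz at h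
  have hb : Nat.beq n 0 = false := by
    cases hb : Nat.beq n 0
    · rfl
    · exact absurd (Nat.eq_of_beq_eq_true hb) hn
  rw [hb] at h
  exact h

/-- The search. -/
def search (leaf : Nat → Nat → Nat → Bool) (l : List Dat) : Nat → Nat → Nat → Bool :=
  List.rec (motive := fun _ => Nat → Nat → Nat → Bool) leaf
    (fun d _ ih T A B =>
    ands (nz (Nat.land T d.K) (fun T' => ih T' A B))
    (nz (Nat.xor T (Nat.land T d.K)) (fun T' =>
      ands (nz (Nat.land A d.L0) (fun A' => ih T' A' B))
      (nz (Nat.xor A (Nat.land A d.L0)) (fun A' =>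
        ands (nz (Nat.land B d.L0) (fun B' => ih T' A' B'))
        (ands (nz (Nat.land A' d.L1) (fun A'' => nz (Nat.land B d.L2) (fun B' => ih T' A'' B')))
        (ands (nz (Nat.land A' d.L2) (fun A'' => nz (Nat.land B d.L1) (fun B' => ih T' A'' B')))
        (nz (Nat.land A' d.L3) (fun A'' => nz (Nat.land B d.L3) (fun B' => ih T' A'' B'))))))))))
    l

/-- The condition that must hold at one colouring of the triangle. -/
def Cond (d : Dat) (t a b : Nat) : Prop :=
  d.K.testBit t = true ∨ d.L0.testBit a = true ∨ d.L0.testBit b = true ∨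
    (d.L1.testBit a = true ∧ d.L2.testBit b = true) ∨
    (d.L2.testBit a = true ∧ d.L1.testBit b = true) ∨
    (d.L3.testBit a = true ∧ d.L3.testBit b = true)

lemma land_bit {X Y i : Nat} (h1 : X.testBit i = true) (h2 : Y.testBit i = true) :
    (Nat.land X Y).testBit i = true := by
  have : (X &&& Y).testBit i = true := by rw [Nat.testBit_land, h1, h2]; rfl
  exact this

lemma xor_bit {X Y i : Nat} (h1 : X.testBit i = true) (h2 : ¬ Y.testBit i = true) :
    (Nat.xor X (Nat.land X Y)).testBit i = true := by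
  have : (X ^^^ (X &&& Y)).testBit i = true := by
    rw [Nat.testBit_xor, Nat.testBit_land, h1]
    simp only [Bool.not_eq_true] at h2
    rw [h2]; rfl
  exact this

lemma ne_zero_of_bit {X i : Nat} (h : X.testBit i = true) : X ≠ 0 := by
  rintro rfl
  simp at h

theorem search_sound (leaf : Nat → Nat → Nat → Bool) (l : List Dat) :
    ∀ T A B : Nat, search leaf l T A B = true → ∀ t a b : Nat,
      T.testBit t = true → A.testBit a = true → B.testBit b = true → (∀ d ∈ l, Cond d t a b) →
      ∃ T' A' B', leaf T' A' B' = true ∧ T'.testBit t = true ∧ A'.testBit a = true ∧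
        B'.testBit b = true := by
  induction l with
  | nil =>
    intro T A B h t a b hT hA hB _
    exact ⟨T, A, B, h, hT, hA, hB⟩
  | cons d ds ih =>
    intro T A B h t a b hT hA hB hc
    have hc' : ∀ d ∈ ds, Cond d t a b := fun d hd => hc d (List.mem_cons_of_mem _ hd)
    change ands (nz (Nat.land T d.K) (fun T' => search leaf ds T' A B))
      (nz (Nat.xor T (Nat.land T d.K)) (fun T' =>
      ands (nz (Nat.land A d.L0) (fun A' => search leaf ds T' A' B))
      (nz (Nat.xor A (Nat.land A d.L0)) (fun A' =>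
        ands (nz (Nat.land B d.L0) (fun B' => search leaf ds T' A' B'))
        (ands (nz (Nat.land A' d.L1) (fun A'' => nz (Nat.land B d.L2)
          (fun B' => search leaf ds T' A'' B')))
        (ands (nz (Nat.land A' d.L2) (fun A'' => nz (Nat.land B d.L1)
          (fun B' => search leaf ds T' A'' B')))
        (nz (Nat.land A' d.L3) (fun A'' => nz (Nat.land B d.L3)
          (fun B' => search leaf ds T' A'' B'))))))))) = true at h
    rw [ands_eq, Bool.and_eq_true] at h
    obtain ⟨h1, h2⟩ := h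
    by_cases hK : d.K.testBit t = true
    · have hT' := land_bit hT hK
      have h1' : search leaf ds (Nat.land T d.K) A B = true :=
        nz_of_ne (f := fun T' => search leaf ds T' A B) h1 (ne_zero_of_bit hT')
      exact ih _ _ _ h1' t a b hT' hA hB hc'
    have hT' := xor_bit hT hK
    have h3 := nz_of_ne h2 (ne_zero_of_bit hT')
    rw [ands_eq, Bool.and_eq_true] at h3
    obtain ⟨h4, h5⟩ := h3
    by_cases hA0 : d.L0.testBit a = true
    · have hA' := land_bit hA hA0
      have h4' : search leaf ds (Nat.xor T (Nat.land T d.K)) (Nat.land A d.L0) B = true :=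
        nz_of_ne (f := fun A' => search leaf ds (Nat.xor T (Nat.land T d.K)) A' B) h4
          (ne_zero_of_bit hA')
      exact ih _ _ _ h4' t a b hT' hA' hB hc'
    have hA' := xor_bit hA hA0
    have h6 := nz_of_ne h5 (ne_zero_of_bit hA')
    rw [ands_eq, Bool.and_eq_true, ands_eq, Bool.and_eq_true, ands_eq, Bool.and_eq_true] at h6
    obtain ⟨h7, h8, h9, h10⟩ := h6
    rcases hc d (List.mem_cons_self) with h | h | h | h | h | h
    · exact absurd h hK
    · exact absurd h hA0
    · have hB' := land_bit hB h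
      exact ih _ _ _ (nz_of_ne h7 (ne_zero_of_bit hB')) t a b hT' hA' hB' hc'
    · have hA'' := land_bit hA' h.1
      have hB' := land_bit hB h.2
      exact ih _ _ _ (nz_of_ne (nz_of_ne h8 (ne_zero_of_bit hA'')) (ne_zero_of_bit hB'))
        t a b hT' hA'' hB' hc'
    · have hA'' := land_bit hA' h.1
      have hB' := land_bit hB h.2
      exact ih _ _ _ (nz_of_ne (nz_of_ne h9 (ne_zero_of_bit hA'')) (ne_zero_of_bit hB'))
        t a b hT' hA'' hB' hc'
    · have hA'' := land_bit hA' h.1
      have hB' := land_bit hB h.2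
      exact ih _ _ _ (nz_of_ne (nz_of_ne h10 (ne_zero_of_bit hA'')) (ne_zero_of_bit hB'))
        t a b hT' hA'' hB' hc'

/-- `∀ i < n, f i`, as a Boolean. -/
def allB (n : Nat) (f : Nat → Bool) : Bool :=
  Nat.rec (motive := fun _ => Bool) true (fun m ih => ands (f m) ih) n

lemma allB_iff {n : Nat} {f : Nat → Bool} : allB n f = true ↔ ∀ i < n, f i = true := by
  induction n with
  | zero => simp [allB]
  | succ n ih =>
    have e : allB (n + 1) f = ands (f n) (allB n f) := rfl
    rw [e, ands_eq, Bool.and_eq_true, ih]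
    constructor
    · rintro ⟨h1, h2⟩ i hi
      rcases Nat.lt_succ_iff_lt_or_eq.1 hi with h | rfl
      · exact h2 i h
      · exact h1
    · intro h
      exact ⟨h n (Nat.lt_succ_self n), fun i hi => h i (Nat.lt_succ_of_lt hi)⟩

/-- One of the ten edges is violated by a colouring of the triangle. -/
def killT (t0 t1 t2 c0 c1 c2 : Nat) : Bool :=
  ors (Nat.beq (act t0 c0) c1) (ors (Nat.beq (act t1 c0) c2) (Nat.beq (act t2 c1) c2))

/-- Colour `x` is blocked for the fourth (or fifth) vertex. -/
def blk (a0 a1 a2 c0 c1 c2 x : Nat) : Bool :=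
  ors (Nat.beq (act a0 c0) x) (ors (Nat.beq (act a1 c1) x) (Nat.beq (act a2 c2) x))

/-- There is no colouring with `n` colours: all colourings are blocked. The last edge carries the
permutation number 2. -/
def bad (n t0 t1 t2 a0 a1 a2 b0 b1 b2 : Nat) : Bool :=
  allB n fun c0 => allB n fun c1 => allB n fun c2 => ors (killT t0 t1 t2 c0 c1 c2)
    (allB n fun x => ors (blk a0 a1 a2 c0 c1 c2 x)
      (allB n fun y => ors (blk b0 b1 b2 c0 c1 c2 y) (Nat.beq (act 2 x) y)))

/-- The check at the leaves. -/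
def leafB (T A B : Nat) : Bool :=
  ands (Nat.beq T (Nat.pow 2 (Nat.log2 T))) (ands (Nat.beq A (Nat.pow 2 (Nat.log2 A)))
    (ands (Nat.beq B (Nat.pow 2 (Nat.log2 B)))
      (bad 4 (Nat.div (Nat.log2 T) 81) (Nat.mod (Nat.div (Nat.log2 T) 9) 9) (Nat.mod (Nat.log2 T) 9)
        (Nat.div (Nat.log2 A) 81) (Nat.mod (Nat.div (Nat.log2 A) 9) 9) (Nat.mod (Nat.log2 A) 9)
        (Nat.div (Nat.log2 B) 81) (Nat.mod (Nat.div (Nat.log2 B) 9) 9)
        (Nat.mod (Nat.log2 B) 9))))

/-- All 729 bits. -/
def full : Nat := 2 ^ 729 - 1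

/-- Bit test. -/
def bit (m i : Nat) : Bool := Nat.beq (Nat.land (Nat.shiftRight m i) 1) 1

/-- Equality of Booleans. -/
def beqB (a b : Bool) : Bool :=
  Bool.rec (motive := fun _ => Bool) (Bool.rec (motive := fun _ => Bool) true false b) b a

/-- The masks of `d` are correct at the index `(t0, t1, t2)`. -/
def chk1 (d : Dat) (t0 t1 t2 : Nat) : Bool :=
  ands (beqB (bit d.K (Nat.add (Nat.add (Nat.mul 81 t0) (Nat.mul 9 t1)) t2))
    (killT t0 t1 t2 d.c0 d.c1 d.c2))
  (ands (beqB (bit d.L0 (Nat.add (Nat.add (Nat.mul 81 t0) (Nat.mul 9 t1)) t2))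
    (ands (blk t0 t1 t2 d.c0 d.c1 d.c2 0) (ands (blk t0 t1 t2 d.c0 d.c1 d.c2 1)
      (blk t0 t1 t2 d.c0 d.c1 d.c2 2))))
  (ands (beqB (bit d.L1 (Nat.add (Nat.add (Nat.mul 81 t0) (Nat.mul 9 t1)) t2))
    (ands (not (blk t0 t1 t2 d.c0 d.c1 d.c2 0)) (ands (blk t0 t1 t2 d.c0 d.c1 d.c2 1)
      (blk t0 t1 t2 d.c0 d.c1 d.c2 2))))
  (ands (beqB (bit d.L2 (Nat.add (Nat.add (Nat.mul 81 t0) (Nat.mul 9 t1)) t2))
    (ands (blk t0 t1 t2 d.c0 d.c1 d.c2 0) (ands (not (blk t0 t1 t2 d.c0 d.c1 d.c2 1))
      (blk t0 t1 t2 d.c0 d.c1 d.c2 2))))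
  (beqB (bit d.L3 (Nat.add (Nat.add (Nat.mul 81 t0) (Nat.mul 9 t1)) t2))
    (ands (blk t0 t1 t2 d.c0 d.c1 d.c2 0) (ands (blk t0 t1 t2 d.c0 d.c1 d.c2 1)
      (not (blk t0 t1 t2 d.c0 d.c1 d.c2 2))))))))

/-- All masks of `d` are correct. -/
def chk (d : Dat) : Bool :=
  ands (ands (Nat.ble d.c0 2) (ands (Nat.ble d.c1 2) (Nat.ble d.c2 2)))
    (allB 9 fun t0 => allB 9 fun t1 => allB 9 fun t2 => chk1 d t0 t1 t2)

set_option maxRecDepth 100000 in
theorem search_ok : search leafB dats full full full = true := by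
  decide +kernel

set_option maxRecDepth 100000 in
theorem chk_ok : dats.all chk = true := by
  decide +kernel

end Pool.Agent.Lib.MP_3ca1b2_co
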