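import Pool.Agent.Lib.MP_3ca1b2_co.Check

namespace Pool.Agent.Lib.MP_3ca1b2_co

lemma bit_eq (m i : Nat) : bit m i = m.testBit i := by
  unfold bit
  have h : m.testBit i = ((m >>> i) &&& 1 != 0) := by
    rw [Nat.testBit, Nat.land_comm]
  rw [h]
  have h2 : (m >>> i) &&& 1 = (m >>> i) % 2 := Nat.and_one_is_mod _
  change Nat.beq ((m >>> i) &&& 1) 1 = _
  rw [h2]
  rcases Nat.mod_two_eq_zero_or_one (m >>> i) with h3 | h3
  · rw [h3]; rfl
  · rw [h3]; rfl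

lemma beqB_iff {a b : Bool} : beqB a b = true ↔ a = b := by
  cases a <;> cases b <;> simp [beqB]

lemma full_bit {i : Nat} (h : i < 729) : full.testBit i = true := by
  unfold full
  rw [Nat.testBit_two_pow_sub_one]
  simp [h]

lemma act_two_vals : act 2 0 = 1 ∧ act 2 1 = 0 ∧ act 2 2 = 2 := by
  refine ⟨?_, ?_, ?_⟩ <;> decide +kernel

lemma cond_of_bad {t0 t1 t2 a0 a1 a2 b0 b1 b2 : Nat} (ht0 : t0 < 9) (ht1 : t1 < 9) (ht2 : t2 < 9)
    (ha0 : a0 < 9) (ha1 : a1 < 9) (ha2 : a2 < 9) (hb0 : b0 < 9) (hb1 : b1 < 9) (hb2 : b2 < 9)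
    (h : bad 3 t0 t1 t2 a0 a1 a2 b0 b1 b2 = true) (d : Dat) (hd : d ∈ dats) :
    Cond d (81 * t0 + 9 * t1 + t2) (81 * a0 + 9 * a1 + a2) (81 * b0 + 9 * b1 + b2) := by
  have hall := chk_ok
  rw [List.all_eq_true] at hall
  have hc := hall d hd
  unfold chk at hc
  simp only [ands_eq, Bool.and_eq_true, allB_iff] at hc
  obtain ⟨⟨hc0, hc1, hc2⟩, hm⟩ := hc
  have hc0' : d.c0 < 3 := Nat.lt_succ_of_le (Nat.le_of_ble_eq_true hc0)
  have hc1' : d.c1 < 3 := Nat.lt_succ_of_le (Nat.le_of_ble_eq_true hc1)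
  have hc2' : d.c2 < 3 := Nat.lt_succ_of_le (Nat.le_of_ble_eq_true hc2)
  have mt := hm t0 ht0 t1 ht1 t2 ht2
  have ma := hm a0 ha0 a1 ha1 a2 ha2
  have mb := hm b0 hb0 b1 hb1 b2 hb2
  unfold chk1 at mt ma mb
  simp only [ands_eq, Bool.and_eq_true, beqB_iff, bit_eq] at mt ma mb
  have e : ∀ x y z : Nat, Nat.add (Nat.add (Nat.mul 81 x) (Nat.mul 9 y)) z = 81 * x + 9 * y + z :=
    fun _ _ _ => rfl
  simp only [e] at mt ma mb
  obtain ⟨mtK, -⟩ := mt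
  obtain ⟨-, ma0, ma1, ma2, ma3⟩ := ma
  obtain ⟨-, mb0, mb1, mb2, mb3⟩ := mb
  unfold bad at h
  rw [allB_iff] at h
  have h := h _ hc0'
  rw [allB_iff] at h
  have h := h _ hc1'
  rw [allB_iff] at h
  have h := h _ hc2'
  rw [ors_eq, Bool.or_eq_true, allB_iff] at h
  unfold Cond
  rw [mtK, ma0, ma1, ma2, ma3, mb0, mb1, mb2, mb3]
  rcases h with h | h
  · exact Or.inl h
  have g0 := h 0 (by norm_num)
  have g1 := h 1 (by norm_num)
  have g2 := h 2 (by norm_num)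
  rw [ors_eq, Bool.or_eq_true, allB_iff] at g0 g1 g2
  have k0 := fun g => g0.resolve_left g
  have k1 := fun g => g1.resolve_left g
  have k2 := fun g => g2.resolve_left g
  clear g0 g1 g2 h
  obtain ⟨v0, v1, v2⟩ := act_two_vals
  rw [v0] at k0
  rw [v1] at k1
  rw [v2] at k2
  have q00 := fun g => k0 g 0 (by norm_num)
  have q01 := fun g => k0 g 1 (by norm_num)
  have q02 := fun g => k0 g 2 (by norm_num)
  have q10 := fun g => k1 g 0 (by norm_num)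
  have q11 := fun g => k1 g 1 (by norm_num)
  have q12 := fun g => k1 g 2 (by norm_num)
  have q20 := fun g => k2 g 0 (by norm_num)
  have q21 := fun g => k2 g 1 (by norm_num)
  have q22 := fun g => k2 g 2 (by norm_num)
  clear k0 k1 k2
  have n01 : Nat.beq 0 1 = false := rfl
  have n02 : Nat.beq 0 2 = false := rfl
  have n10 : Nat.beq 1 0 = false := rfl
  have n12 : Nat.beq 1 2 = false := rfl
  have n20 : Nat.beq 2 0 = false := rfl
  have n21 : Nat.beq 2 1 = false := rfl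
  simp only [ors_eq, Bool.or_eq_true] at q00 q01 q02 q10 q11 q12 q20 q21 q22
  rw [n10] at q00
  rw [n12] at q02
  rw [n01] at q11
  rw [n02] at q12
  rw [n20] at q20
  rw [n21] at q21
  generalize killT t0 t1 t2 d.c0 d.c1 d.c2 = K
  generalize blk a0 a1 a2 d.c0 d.c1 d.c2 0 = x0 at *
  generalize blk a0 a1 a2 d.c0 d.c1 d.c2 1 = x1 at *
  generalize blk a0 a1 a2 d.c0 d.c1 d.c2 2 = x2 at *
  generalize blk b0 b1 b2 d.c0 d.c1 d.c2 0 = y0 at *
  generalize blk b0 b1 b2 d.c0 d.c1 d.c2 1 = y1 at *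
  generalize blk b0 b1 b2 d.c0 d.c1 d.c2 2 = y2 at *
  clear q01 q10 q22 mtK ma0 ma1 ma2 ma3 mb0 mb1 mb2 mb3
  revert q00 q02 q11 q12 q20 q21
  cases x0 <;> cases x1 <;> cases x2 <;> cases y0 <;> cases y1 <;> cases y2 <;> simp

/-- The main finite statement. -/
theorem bad_four {t0 t1 t2 a0 a1 a2 b0 b1 b2 : Nat} (ht0 : t0 < 9) (ht1 : t1 < 9) (ht2 : t2 < 9)
    (ha0 : a0 < 9) (ha1 : a1 < 9) (ha2 : a2 < 9) (hb0 : b0 < 9) (hb1 : b1 < 9) (hb2 : b2 < 9)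
    (h : bad 3 t0 t1 t2 a0 a1 a2 b0 b1 b2 = true) :
    bad 4 t0 t1 t2 a0 a1 a2 b0 b1 b2 = true := by
  obtain ⟨T, A, B, hl, hT, hA, hB⟩ := search_sound leafB dats full full full search_ok
    (81 * t0 + 9 * t1 + t2) (81 * a0 + 9 * a1 + a2) (81 * b0 + 9 * b1 + b2)
    (full_bit (by omega)) (full_bit (by omega)) (full_bit (by omega))
    (cond_of_bad ht0 ht1 ht2 ha0 ha1 ha2 hb0 hb1 hb2 h)
  unfold leafB at hl
  simp only [ands_eq, Bool.and_eq_true] at hl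
  obtain ⟨h1, h2, h3, h4⟩ := hl
  have key : ∀ X i : Nat, Nat.beq X (Nat.pow 2 (Nat.log2 X)) = true → X.testBit i = true →
      Nat.log2 X = i := by
    intro X i hX hi
    have hX' : X = 2 ^ (Nat.log2 X) := Nat.eq_of_beq_eq_true hX
    rw [hX', Nat.testBit_two_pow] at hi
    simpa using hi
  rw [key T _ h1 hT, key A _ h2 hA, key B _ h3 hB] at h4
  have e1 : ∀ x y z : Nat, x < 9 → y < 9 → z < 9 → Nat.div (81 * x + 9 * y + z) 81 = x := by
    intro x y z _ _ _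
    change (81 * x + 9 * y + z) / 81 = x
    omega
  have e2 : ∀ x y z : Nat, x < 9 → y < 9 → z < 9 →
      Nat.mod (Nat.div (81 * x + 9 * y + z) 9) 9 = y := by
    intro x y z _ _ _
    change (81 * x + 9 * y + z) / 9 % 9 = y
    omega
  have e3 : ∀ x y z : Nat, x < 9 → y < 9 → z < 9 → Nat.mod (81 * x + 9 * y + z) 9 = z := by
    intro x y z _ _ _
    change (81 * x + 9 * y + z) % 9 = z
    omega
  rw [e1 _ _ _ ht0 ht1 ht2, e2 _ _ _ ht0 ht1 ht2, e3 _ _ _ ht0 ht1 ht2, e1 _ _ _ ha0 ha1 ha2,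
    e2 _ _ _ ha0 ha1 ha2, e3 _ _ _ ha0 ha1 ha2, e1 _ _ _ hb0 hb1 hb2, e2 _ _ _ hb0 hb1 hb2,
    e3 _ _ _ hb0 hb1 hb2] at h4
  exact h4

end Pool.Agent.Lib.MP_3ca1b2_co
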