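import Pool.Agent.Lib.MP_3ca1b2_co.Main

namespace Pool.Agent.Lib.MP_3ca1b2_co

open Equiv

/-- The nine permutations of `{1, 2, 3, 4}`, as permutations of `ℕ`. -/
def P : Fin 9 → Equiv.Perm ℕ := ![
  swap 2 3 * swap 3 4,
  swap 2 4 * swap 4 3,
  swap 1 2,
  swap 1 2 * swap 2 3 * swap 3 4,
  swap 1 2 * swap 2 4 * swap 4 3,
  swap 1 3 * swap 3 4 * swap 4 2,
  swap 1 3 * swap 3 4,
  swap 1 4 * swap 4 3 * swap 3 2,
  swap 1 4 * swap 4 3]

lemma P_act (i : Fin 9) (x : ℕ) (hx : x < 4) : P i (x + 1) = act i x + 1 := by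
  interval_cases x <;> fin_cases i <;> decide

lemma P_fix (i : Fin 9) (x : ℕ) (hx : x ∉ Set.Icc 1 4) : P i x = x := by
  have h1 : x ≠ 1 := by rintro rfl; exact hx ⟨by norm_num, by norm_num⟩
  have h2 : x ≠ 2 := by rintro rfl; exact hx ⟨by norm_num, by norm_num⟩
  have h3 : x ≠ 3 := by rintro rfl; exact hx ⟨by norm_num, by norm_num⟩
  have h4 : x ≠ 4 := by rintro rfl; exact hx ⟨by norm_num, by norm_num⟩
  fin_cases i <;> simp [P, swap_apply_of_ne_of_ne, h1, h2, h3, h4]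

/-- The index of the inverse permutation. -/
def pinv : Fin 9 → Fin 9 := ![1, 0, 2, 7, 5, 4, 8, 3, 6]

lemma P_pinv (i : Fin 9) : P (pinv i) = (P i)⁻¹ := by
  rw [eq_inv_iff_mul_eq_one]
  ext x
  by_cases hx : x ∈ Set.Icc 1 4
  · obtain ⟨h1, h2⟩ := hx
    interval_cases x <;> fin_cases i <;> decide
  · rw [Perm.mul_apply, P_fix i x hx, P_fix _ x hx]
    rfl

lemma P_three (i : Fin 9) (h : P i 3 = 3) : i = 2 := by
  revert h
  fin_cases i <;> decide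

lemma P_pinv_apply (i : Fin 9) (x : ℕ) : P (pinv i) (P i x) = x := by
  rw [P_pinv]; simp

lemma nbeq_iff {a b : ℕ} : Nat.beq a b = true ↔ a = b :=
  ⟨Nat.eq_of_beq_eq_true, fun h => h ▸ Nat.beq_refl a⟩

lemma killT_iff {t0 t1 t2 c0 c1 c2 : ℕ} : killT t0 t1 t2 c0 c1 c2 = true ↔
    (act t0 c0 = c1 ∨ act t1 c0 = c2 ∨ act t2 c1 = c2) := by
  unfold killT
  rw [ors_eq, Bool.or_eq_true, ors_eq, Bool.or_eq_true, nbeq_iff, nbeq_iff, nbeq_iff]

lemma blk_iff {a0 a1 a2 c0 c1 c2 x : ℕ} : blk a0 a1 a2 c0 c1 c2 x = true ↔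
    (act a0 c0 = x ∨ act a1 c1 = x ∨ act a2 c2 = x) := by
  unfold blk
  rw [ors_eq, Bool.or_eq_true, ors_eq, Bool.or_eq_true, nbeq_iff, nbeq_iff, nbeq_iff]

lemma bad_iff {n t0 t1 t2 a0 a1 a2 b0 b1 b2 : ℕ} : bad n t0 t1 t2 a0 a1 a2 b0 b1 b2 = true ↔
    ∀ c0 < n, ∀ c1 < n, ∀ c2 < n, ∀ x < n, ∀ y < n,
      ((act t0 c0 = c1 ∨ act t1 c0 = c2 ∨ act t2 c1 = c2) ∨
        (act a0 c0 = x ∨ act a1 c1 = x ∨ act a2 c2 = x) ∨
        (act b0 c0 = y ∨ act b1 c1 = y ∨ act b2 c2 = y) ∨ act 2 x = y) := by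
  unfold bad
  simp only [allB_iff, ors_eq, Bool.or_eq_true, killT_iff, blk_iff, nbeq_iff]
  constructor
  · intro h c0 h0 c1 h1 c2 h2 x hx y hy
    rcases h c0 h0 c1 h1 c2 h2 with h | h
    · exact Or.inl h
    · rcases h x hx with h | h
      · exact Or.inr (Or.inl h)
      · exact Or.inr (Or.inr (h y hy))
  · intro h c0 h0 c1 h1 c2 h2
    by_cases hk : act t0 c0 = c1 ∨ act t1 c0 = c2 ∨ act t2 c1 = c2
    · exact Or.inl hk
    · right
      intro x hx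
      by_cases hb : act a0 c0 = x ∨ act a1 c1 = x ∨ act a2 c2 = x
      · exact Or.inl hb
      · right
        intro y hy
        exact ((h c0 h0 c1 h1 c2 h2 x hx y hy).resolve_left hk).resolve_left hb

end Pool.Agent.Lib.MP_3ca1b2_co
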